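import Mathlib

/-!
# Every non-amenable group is a union of two sets with `is12 = 0`
-/

namespace Pool.Agent.Results.MP_d97def_al.NullHalves

universe u

/-- `G` is amenable: there is a left-invariant finitely additive probability measure on all
subsets of `G`. -/
def IsAmenable (G : Type u) [Group G] : Prop :=
  ∃ m : Set G → ℝ, (∀ A, 0 ≤ m A) ∧ m Set.univ = 1 ∧
    (∀ A B, Disjoint A B → m (A ∪ B) = m A + m B) ∧
    ∀ (g : G) (A : Set G), m ((fun x => g * x) '' A) = m A

/-- `P_ω(G)`: the finitely supported probability measures on `G`, given by their weights. -/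
def FinProb (G : Type u) : Type u :=
  {w : G →₀ ℝ // (∀ g, 0 ≤ w g) ∧ ∑ g ∈ w.support, w g = 1}

open Classical in
/-- The measure `μ(B)` of a set `B` for `μ ∈ P_ω(G)`. -/
noncomputable def mass {G : Type u} (w : FinProb G) (B : Set G) : ℝ :=
  ∑ g ∈ w.1.support, if g ∈ B then w.1 g else 0

/-- The right translate `A y`. -/
def rightTranslate {G : Type u} [Group G] (A : Set G) (y : G) : Set G := (fun a => a * y) '' A

/-- `is₁₂(A) = inf_{μ ∈ P_ω(G)} sup_{y ∈ G} μ(A y)`. -/
noncomputable def is12 {G : Type u} [Group G] (A : Set G) : ℝ :=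
  ⨅ w : FinProb G, ⨆ y : G, mass w (rightTranslate A y)

/-- Property (a): every partition into `n` cells has a cell with `is₁₂ ≥ 1/n`. -/
def PropertyA (G : Type u) [Group G] : Prop :=
  ∀ n : ℕ, 1 ≤ n → ∀ c : G → Fin n, ∃ i : Fin n, (1 : ℝ) / n ≤ is12 {x | c x = i}

/-- Property (d): every partition into `n` cells has a cell with `is₁₂ > 0`. -/
def PropertyD (G : Type u) [Group G] : Prop :=
  ∀ n : ℕ, 1 ≤ n → ∀ c : G → Fin n, ∃ i : Fin n, 0 < is12 {x | c x = i}

/-! ## The compact convex set of means -/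

section

variable {G : Type u} [Group G]

/-- the set of all means -/
def MM (G : Type u) : Set (Set G → ℝ) :=
  {z | (∀ A, 0 ≤ z A) ∧ z Set.univ = 1 ∧ ∀ A B, Disjoint A B → z (A ∪ B) = z A + z B}

/-- push-forward of a mean under left multiplication -/
def T (g : G) (z : Set G → ℝ) : Set G → ℝ := fun A => z {x | g * x ∈ A}

lemma T_T (g h : G) (z : Set G → ℝ) : T g (T h z) = T (g * h) z := by
  funext A
  unfold T
  congr 1
  ext x
  simp [mul_assoc]

lemma T_one (z : Set G → ℝ) : T (1 : G) z = z := by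
  funext A
  unfold T
  simp

lemma T_cont (g : G) : Continuous (T g : (Set G → ℝ) → (Set G → ℝ)) :=
  continuous_pi fun A => continuous_apply _

lemma T_add (g : G) (y z : Set G → ℝ) : T g (y + z) = T g y + T g z := rfl

lemma T_smul (g : G) (t : ℝ) (z : Set G → ℝ) : T g (t • z) = t • T g z := rfl

lemma MM_le_one {z : Set G → ℝ} (hz : z ∈ MM G) (A : Set G) : z A ≤ 1 := by
  have h := hz.2.2 A Aᶜ disjoint_compl_right
  rw [Set.union_compl_self, hz.2.1] at h
  linarith [hz.1 Aᶜ]

lemma MM_compl {z : Set G → ℝ} (hz : z ∈ MM G) (A : Set G) : z Aᶜ = 1 - z A := by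
  have h := hz.2.2 A Aᶜ disjoint_compl_right
  rw [Set.union_compl_self, hz.2.1] at h
  linarith

lemma T_mem_MM {z : Set G → ℝ} (hz : z ∈ MM G) (g : G) : T g z ∈ MM G := by
  refine ⟨fun A => hz.1 _, ?_, ?_⟩
  · unfold T
    simpa using hz.2.1
  · intro A B hAB
    unfold T
    have : {x | g * x ∈ A ∪ B} = {x | g * x ∈ A} ∪ {x | g * x ∈ B} := by
      ext x; simp
    rw [this]
    apply hz.2.2
    rw [Set.disjoint_left]
    intro x hx hx'
    exact Set.disjoint_left.mp hAB hx hx'

lemma MM_closed : IsClosed (MM G) := by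
  have h1 : IsClosed {z : Set G → ℝ | ∀ A, 0 ≤ z A} := by
    simp only [Set.ofPred_forall]
    exact isClosed_iInter fun A => isClosed_le continuous_const (continuous_apply A)
  have h2 : IsClosed {z : Set G → ℝ | z Set.univ = 1} :=
    isClosed_eq (continuous_apply _) continuous_const
  have h3 : IsClosed {z : Set G → ℝ | ∀ A B, Disjoint A B → z (A ∪ B) = z A + z B} := by
    simp only [Set.ofPred_forall]
    refine isClosed_iInter fun A => isClosed_iInter fun B => isClosed_iInter fun _ => ?_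
    exact isClosed_eq (continuous_apply _) (by fun_prop)
  exact h1.inter (h2.inter h3)

lemma MM_compact : IsCompact (MM G) := by
  apply IsCompact.of_isClosed_subset (isCompact_univ_pi (fun _ : Set G => isCompact_Icc (a := (0:ℝ)) (b := 1)))
    MM_closed
  intro z hz A _
  exact ⟨hz.1 A, MM_le_one hz A⟩

lemma MM_convex : Convex ℝ (MM G) := by
  intro y hy z hz a b ha hb hab
  refine ⟨fun A => ?_, ?_, fun A B hAB => ?_⟩
  · simp only [Pi.add_apply, Pi.smul_apply, smul_eq_mul]
    exact add_nonneg (mul_nonneg ha (hy.1 A)) (mul_nonneg hb (hz.1 A))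
  · simp only [Pi.add_apply, Pi.smul_apply, smul_eq_mul, hy.2.1, hz.2.1, mul_one]
    exact hab
  · simp only [Pi.add_apply, Pi.smul_apply, smul_eq_mul, hy.2.2 A B hAB, hz.2.2 A B hAB]
    ring

open Classical in
lemma MM_nonempty : (MM G).Nonempty := by
  refine ⟨fun A => if (1 : G) ∈ A then 1 else 0, fun A => ?_, by simp, fun A B hAB => ?_⟩
  · dsimp only
    split_ifs <;> norm_num
  · by_cases hA : (1 : G) ∈ A
    · have hB : (1 : G) ∉ B := fun hB => Set.disjoint_left.mp hAB hA hB
      simp [hA, hB]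
    · by_cases hB : (1 : G) ∈ B <;> simp [hA, hB]

/-- the family of non-empty closed convex invariant sets of means -/
def Fam (G : Type u) [Group G] : Set (Set (Set G → ℝ)) :=
  {Q | Q ⊆ MM G ∧ Q.Nonempty ∧ IsClosed Q ∧ Convex ℝ Q ∧ ∀ g : G, ∀ z ∈ Q, T g z ∈ Q}

lemma exists_minimal : ∃ Q, Minimal (· ∈ Fam G) Q := by
  obtain ⟨Q, _, hQ⟩ := zorn_superset_nonempty (Fam G) (by
    intro c hc hchain hne
    refine ⟨⋂₀ c, ⟨?_, ?_, ?_, ?_, ?_⟩, fun s hs => Set.sInter_subset_of_mem hs⟩
    · obtain ⟨s, hs⟩ := hne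
      exact (Set.sInter_subset_of_mem hs).trans (hc hs).1
    · have hdir : DirectedOn (· ⊇ ·) c := by
        intro a ha b hb
        rcases hchain.total ha hb with h | h
        · exact ⟨a, ha, subset_rfl, h⟩
        · exact ⟨b, hb, h, subset_rfl⟩
      have : Nonempty c := hne.to_subtype
      exact IsCompact.nonempty_sInter_of_directed_nonempty_isCompact_isClosed hdir
        (fun s hs => (hc hs).2.1)
        (fun s hs => MM_compact.of_isClosed_subset (hc hs).2.2.1 (hc hs).1)
        (fun s hs => (hc hs).2.2.1)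
    · exact isClosed_sInter fun s hs => (hc hs).2.2.1
    · exact convex_sInter fun s hs => (hc hs).2.2.2.1
    · intro g z hz s hs
      exact (hc hs).2.2.2.2 g z (hz s hs)) (MM G)
    ⟨subset_rfl, MM_nonempty, MM_closed, MM_convex, fun g z hz => T_mem_MM hz g⟩
  exact ⟨Q, hQ⟩

/-- In a minimal set the orbit of every point comes close to the minimum of any coordinate. -/
lemma orbit_near_min {Q : Set (Set G → ℝ)} (hQ : Minimal (· ∈ Fam G) Q) (D : Set G)
    {zm : Set G → ℝ} (hzm : zm ∈ Q) {δ : ℝ} (hδ : 0 < δ)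
    (z : Set G → ℝ) (hz : z ∈ Q) : ∃ g : G, T g z D < zm D + δ := by
  by_contra hcon
  push Not at hcon
  obtain ⟨h1, h2, h3, h4, h5⟩ := hQ.prop
  let Q' : Set (Set G → ℝ) := {y | y ∈ Q ∧ ∀ g : G, zm D + δ ≤ T g y D}
  have hQ' : Q' ∈ Fam G := by
    refine ⟨fun y hy => h1 hy.1, ⟨z, hz, hcon⟩, ?_, ?_, ?_⟩
    · have : Q' = Q ∩ ⋂ g : G, {y | zm D + δ ≤ T g y D} := by
        ext y; simp [Q']
      rw [this]
      refine h3.inter (isClosed_iInter fun g => ?_)
      exact isClosed_le continuous_const ((continuous_apply D).comp (T_cont g))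
    · intro y hy y' hy' a b ha hb hab
      refine ⟨h4 hy.1 hy'.1 ha hb hab, fun g => ?_⟩
      have e1 : T g (a • y + b • y') D = a * T g y D + b * T g y' D := rfl
      rw [e1]
      have := mul_le_mul_of_nonneg_left (hy.2 g) ha
      have := mul_le_mul_of_nonneg_left (hy'.2 g) hb
      have h6 : zm D + δ = a * (zm D + δ) + b * (zm D + δ) := by
        rw [← add_mul, hab, one_mul]
      linarith
    · intro g y hy
      refine ⟨h5 g y hy.1, fun g' => ?_⟩
      rw [T_T]
      exact hy.2 _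
  have hsub : Q ⊆ Q' := hQ.le_of_le hQ' (fun y hy => hy.1)
  have := (hsub hzm).2 1
  rw [T_one] at this
  linarith

/-- Uniform version, by a finite-dimensional separation argument. -/
lemma uniform_average {Q : Set (Set G → ℝ)} (hQ : Minimal (· ∈ Fam G) Q) (D : Set G)
    {zm : Set G → ℝ} (hzm : zm ∈ Q) {δ : ℝ} (hδ : 0 < δ) :
    ∃ (K : Finset G) (c : G → ℝ), (∀ g, 0 ≤ c g) ∧ 0 < ∑ g ∈ K, c g ∧
      ∀ z ∈ Q, ∑ g ∈ K, c g * T g z D ≤ (∑ g ∈ K, c g) * (zm D + δ) := by
  classical
  obtain ⟨h1, h2, h3, h4, h5⟩ := hQ.prop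
  have hcomp : IsCompact Q := MM_compact.of_isClosed_subset h3 h1
  obtain ⟨K, hK⟩ := hcomp.elim_finite_subcover (fun g : G => {z : Set G → ℝ | T g z D < zm D + δ})
    (fun g => isOpen_lt ((continuous_apply D).comp (T_cont g)) continuous_const)
    (fun z hz => by
      obtain ⟨g, hg⟩ := orbit_near_min hQ D hzm hδ z hz
      exact Set.mem_iUnion.mpr ⟨g, hg⟩)
  let Φ : (Set G → ℝ) → (K → ℝ) := fun z g => T g.1 z D
  have hΦc : Continuous Φ := continuous_pi fun g => (continuous_apply D).comp (T_cont g.1)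
  have himc : IsCompact (Φ '' Q) := hcomp.image hΦc
  have himconv : Convex ℝ (Φ '' Q) := by
    rintro _ ⟨y, hy, rfl⟩ _ ⟨y', hy', rfl⟩ a b ha hb hab
    exact ⟨a • y + b • y', h4 hy hy' ha hb hab, rfl⟩
  let O : Set (K → ℝ) := {v | ∀ g, zm D + δ ≤ v g}
  have hOclosed : IsClosed O := by
    have : O = ⋂ g : K, {v : K → ℝ | zm D + δ ≤ v g} := by
      ext v; simp [O]
    rw [this]
    exact isClosed_iInter fun g => isClosed_le continuous_const (continuous_apply g)
  have hOconv : Convex ℝ O := by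
    intro v hv v' hv' a b ha hb hab g
    have := mul_le_mul_of_nonneg_left (hv g) ha
    have := mul_le_mul_of_nonneg_left (hv' g) hb
    have h6 : zm D + δ = a * (zm D + δ) + b * (zm D + δ) := by
      rw [← add_mul, hab, one_mul]
    simp only [Pi.add_apply, Pi.smul_apply, smul_eq_mul]
    linarith
  have hdisj : Disjoint (Φ '' Q) O := by
    rw [Set.disjoint_left]
    rintro _ ⟨z, hz, rfl⟩ hO
    obtain ⟨g, hg⟩ := Set.mem_iUnion.mp (hK hz)
    obtain ⟨hgK, hg'⟩ := Set.mem_iUnion.mp hg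
    have h7 : zm D + δ ≤ T g z D := hO ⟨g, hgK⟩
    have h8 : T g z D < zm D + δ := hg'
    linarith
  obtain ⟨f, u, v, hfu, huv, hvf⟩ := geometric_hahn_banach_compact_closed himconv himc hOconv
    hOclosed hdisj
  -- coefficients
  let c' : K → ℝ := fun g => f (Pi.single g 1)
  have hf : ∀ x : K → ℝ, f x = ∑ g, c' g * x g := by
    intro x
    have hx : x = ∑ g, x g • (Pi.single g (1 : ℝ) : K → ℝ) := by
      ext g
      simp [Finset.sum_apply, Pi.single_apply]
    conv_lhs => rw [hx]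
    rw [map_sum]
    apply Finset.sum_congr rfl
    intro g _
    rw [map_smul, smul_eq_mul, mul_comm]
  let b0 : K → ℝ := fun _ => zm D + δ
  have hb0 : b0 ∈ O := fun g => le_refl _
  have hc' : ∀ g, 0 ≤ c' g := by
    intro g
    by_contra hneg
    push Not at hneg
    -- move far along the `g` direction
    let t : ℝ := (f b0 - v) / (-c' g)
    have ht : 0 < t := div_pos (by linarith [hvf b0 hb0]) (by linarith)
    have hmem : b0 + t • (Pi.single g (1 : ℝ) : K → ℝ) ∈ O := by
      intro g'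
      simp only [Pi.add_apply, Pi.smul_apply, smul_eq_mul, b0]
      by_cases h : g' = g
      · subst h
        simp
        exact ht.le
      · simp [Pi.single_apply, h]
    have h9 := hvf _ hmem
    rw [map_add, map_smul, smul_eq_mul] at h9
    have h10 : t * f (Pi.single g 1) = -(f b0 - v) := by
      change (f b0 - v) / (-c' g) * c' g = _
      have hne : c' g ≠ 0 := ne_of_lt hneg
      rw [div_neg, neg_mul, div_mul_cancel₀ _ hne]
    rw [h10] at h9
    linarith
  let c : G → ℝ := fun g => if h : g ∈ K then c' ⟨g, h⟩ else 0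
  have hsum : ∀ x : G → ℝ, ∑ g ∈ K, c g * x g = ∑ g : K, c' g * x g.1 := by
    intro x
    rw [← Finset.sum_coe_sort K]
    apply Finset.sum_congr rfl
    intro g _
    simp only [c]
    rw [dif_pos g.2]
  have hsum1 : ∑ g ∈ K, c g = ∑ g : K, c' g := by
    have := hsum (fun _ => 1)
    simpa using this
  obtain ⟨z0, hz0⟩ := h2
  have hfb0 : f b0 = (∑ g : K, c' g) * (zm D + δ) := by
    rw [hf, Finset.sum_mul]
  refine ⟨K, c, ?_, ?_, ?_⟩
  · intro g
    simp only [c]
    split_ifs
    · exact hc' _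
    · exact le_refl _
  · rw [hsum1]
    by_contra hcon
    have hnonneg : 0 ≤ ∑ g : K, c' g := Finset.sum_nonneg fun g _ => hc' g
    have hzero : ∑ g : K, c' g = 0 := le_antisymm (not_lt.mp hcon) hnonneg
    have hall : ∀ g ∈ (Finset.univ : Finset K), c' g = 0 :=
      (Finset.sum_eq_zero_iff_of_nonneg (fun g _ => hc' g)).mp hzero
    have hf0 : ∀ x, f x = 0 := by
      intro x
      rw [hf]
      apply Finset.sum_eq_zero
      intro g hg
      rw [hall g hg, zero_mul]
    have a1 := hfu (Φ z0) ⟨z0, hz0, rfl⟩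
    have a2 := hvf b0 hb0
    rw [hf0] at a1 a2
    linarith
  · intro z hz
    have a1 := hfu (Φ z) ⟨z, hz, rfl⟩
    have a2 := hvf b0 hb0
    rw [hsum (fun g => T g z D), hsum1, ← hfb0]
    have : f (Φ z) = ∑ g : K, c' g * T g.1 z D := hf _
    linarith

/-- The key step: superlevel sets of the orbit function above the minimum are `is₁₂`-null. -/
lemma mass_small {Q : Set (Set G → ℝ)} (hQ : Minimal (· ∈ Fam G) Q) (D : Set G)
    {zm : Set G → ℝ} (hzm : zm ∈ Q) (hmin : ∀ z ∈ Q, zm D ≤ z D) {z0 : Set G → ℝ} (hz0 : z0 ∈ Q)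
    {r : ℝ} (hr : zm D < r) (A : Set G) (hA : ∀ x ∈ A, r ≤ T x z0 D) {ε : ℝ} (hε : 0 < ε) :
    ∃ w : FinProb G, ∀ y : G, mass w (rightTranslate A y) ≤ ε := by
  classical
  obtain ⟨h1, h2, h3, h4, h5⟩ := hQ.prop
  have hδ : 0 < ε * (r - zm D) := mul_pos hε (by linarith)
  obtain ⟨K, c, hc0, hcpos, hK⟩ := uniform_average hQ D hzm hδ
  set s := ∑ g ∈ K, c g with hs
  let w0 : G →₀ ℝ := Finsupp.onFinset K (fun g => if g ∈ K then c g / s else 0)
    (by
      intro g hg
      by_contra hgK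
      rw [if_neg hgK] at hg
      exact hg rfl)
  have hw0 : ∀ g, w0 g = if g ∈ K then c g / s else 0 := fun g => rfl
  have hsupp : w0.support ⊆ K := Finsupp.support_onFinset_subset
  have hwnn : ∀ g, 0 ≤ w0 g := by
    intro g
    rw [hw0]
    split_ifs
    · exact div_nonneg (hc0 g) hcpos.le
    · exact le_refl _
  have hsumK : ∀ F : G → ℝ, ∑ g ∈ w0.support, w0 g * F g = (∑ g ∈ K, c g * F g) / s := by
    intro F
    rw [Finset.sum_subset hsupp (fun g _ hg => by
      rw [Finsupp.notMem_support_iff.mp hg, zero_mul]), Finset.sum_div]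
    apply Finset.sum_congr rfl
    intro g hg
    rw [hw0, if_pos hg]
    ring
  have hwsum : ∑ g ∈ w0.support, w0 g = 1 := by
    have := hsumK (fun _ => 1)
    simp only [mul_one] at this
    rw [this, ← hs, div_self hcpos.ne']
  refine ⟨⟨w0, hwnn, hwsum⟩, ?_⟩
  intro y
  -- average of `F (g y⁻¹) - m`
  have hz : T y⁻¹ z0 ∈ Q := h5 _ _ hz0
  have h6 := hK _ hz
  have h7 : ∑ g ∈ w0.support, w0 g * (T g (T y⁻¹ z0) D - zm D) ≤ ε * (r - zm D) := by
    have e1 : ∑ g ∈ w0.support, w0 g * (T g (T y⁻¹ z0) D - zm D)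
        = ∑ g ∈ w0.support, w0 g * T g (T y⁻¹ z0) D - zm D := by
      simp only [mul_sub]
      rw [Finset.sum_sub_distrib, ← Finset.sum_mul, hwsum, one_mul]
    rw [e1, hsumK (fun g => T g (T y⁻¹ z0) D)]
    have : (∑ g ∈ K, c g * T g (T y⁻¹ z0) D) / s ≤ zm D + ε * (r - zm D) := by
      rw [div_le_iff₀ hcpos]
      linarith
    linarith
  have h8 : (r - zm D) * mass ⟨w0, hwnn, hwsum⟩ (rightTranslate A y)
      ≤ ∑ g ∈ w0.support, w0 g * (T g (T y⁻¹ z0) D - zm D) := by
    unfold mass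
    rw [Finset.mul_sum]
    apply Finset.sum_le_sum
    intro g _
    have hge : zm D ≤ T g (T y⁻¹ z0) D := hmin _ (h5 _ _ hz)
    by_cases hg : g ∈ rightTranslate A y
    · rw [if_pos hg]
      obtain ⟨a, ha, rfl⟩ := hg
      have h9 := hA a ha
      have h10 : T (a * y) (T y⁻¹ z0) D = T a z0 D := by
        rw [T_T]
        congr 1
        simp
      rw [h10, mul_comm]
      exact mul_le_mul_of_nonneg_left (by linarith) (hwnn _)
    · rw [if_neg hg, mul_zero]
      exact mul_nonneg (hwnn _) (by linarith)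
  have h11 : (r - zm D) * mass ⟨w0, hwnn, hwsum⟩ (rightTranslate A y) ≤ (r - zm D) * ε := by
    linarith
  exact le_of_mul_le_mul_left h11 (by linarith)

lemma mass_nonneg (w : FinProb G) (B : Set G) : 0 ≤ mass w B := by
  classical
  unfold mass
  apply Finset.sum_nonneg
  intro g _
  split_ifs
  · exact w.2.1 g
  · exact le_refl _

lemma is12_nonneg (A : Set G) : 0 ≤ is12 A :=
  Real.iInf_nonneg fun w => Real.iSup_nonneg fun y => mass_nonneg w _

lemma is12_eq_zero (A : Set G)
    (h : ∀ ε > 0, ∃ w : FinProb G, ∀ y : G, mass w (rightTranslate A y) ≤ ε) : is12 A = 0 := by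
  apply le_antisymm _ (is12_nonneg A)
  apply le_of_forall_pos_le_add
  intro ε hε
  rw [zero_add]
  obtain ⟨w, hw⟩ := h ε hε
  have hbdd : BddBelow (Set.range fun w : FinProb G => ⨆ y : G, mass w (rightTranslate A y)) := by
    refine ⟨0, ?_⟩
    rintro _ ⟨w, rfl⟩
    exact Real.iSup_nonneg fun y => mass_nonneg w _
  calc is12 A ≤ ⨆ y : G, mass w (rightTranslate A y) := ciInf_le hbdd w
    _ ≤ ε := ciSup_le hw

theorem exists_null_half (hG : ¬ IsAmenable G) : ∃ A : Set G, is12 A = 0 ∧ is12 Aᶜ = 0 := by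
  obtain ⟨Q, hQ⟩ := exists_minimal (G := G)
  obtain ⟨h1, h2, h3, h4, h5⟩ := hQ.prop
  have hcomp : IsCompact Q := MM_compact.of_isClosed_subset h3 h1
  obtain ⟨z0, hz0⟩ := h2
  -- `Q` is not a singleton
  have hne : ∃ z1 ∈ Q, ∃ z2 ∈ Q, ∃ D : Set G, z1 D < z2 D := by
    by_contra hcon
    push Not at hcon
    apply hG
    have heq : ∀ z ∈ Q, z = z0 := by
      intro z hz
      funext D
      exact le_antisymm (hcon z0 hz0 z hz D) (hcon z hz z0 hz0 D)
    refine ⟨z0, (h1 hz0).1, (h1 hz0).2.1, (h1 hz0).2.2, ?_⟩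
    intro g A
    have h6 := heq _ (h5 g⁻¹ z0 hz0)
    have h7 : T g⁻¹ z0 A = z0 A := by rw [h6]
    rw [← h7]
    unfold T
    congr 1
    ext x
    simp only [Set.mem_image, Set.mem_ofPred_eq]
    constructor
    · rintro ⟨y, hy, rfl⟩
      simpa using hy
    · intro hx
      exact ⟨g⁻¹ * x, hx, by simp⟩
  obtain ⟨z1, hz1, z2, hz2, D, hD⟩ := hne
  have hcont : ContinuousOn (fun z : Set G → ℝ => z D) Q := (continuous_apply D).continuousOn
  obtain ⟨zm, hzm, hmin⟩ := hcomp.exists_isMinOn ⟨z0, hz0⟩ hcont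
  obtain ⟨zM, hzM, hmax⟩ := hcomp.exists_isMaxOn ⟨z0, hz0⟩ hcont
  have hmin' : ∀ z ∈ Q, zm D ≤ z D := fun z hz => hmin hz
  have hmax' : ∀ z ∈ Q, z D ≤ zM D := fun z hz => hmax hz
  have hlt : zm D < zM D := by
    linarith [hmin' z1 hz1, hmax' z2 hz2]
  let r : ℝ := (zm D + zM D) / 2
  have hr1 : zm D < r := by simp only [r]; linarith
  have hr2 : r < zM D := by simp only [r]; linarith
  refine ⟨{x | r ≤ T x z0 D}, ?_, ?_⟩
  · apply is12_eq_zero
    intro ε hε
    exact mass_small hQ D hzm hmin' hz0 hr1 _ (fun x hx => hx) hε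
  · apply is12_eq_zero
    intro ε hε
    apply mass_small hQ Dᶜ hzM (r := 1 - r) _ hz0 _ _ _ hε
    · intro z hz
      rw [MM_compl (h1 hz), MM_compl (h1 hzM)]
      linarith [hmax' z hz]
    · rw [MM_compl (h1 hzM)]
      linarith
    · intro x hx
      have hx' : ¬ (r ≤ T x z0 D) := hx
      rw [MM_compl (h1 (h5 x z0 hz0))]
      linarith [not_le.mp hx']

end

/-- Every non-amenable group is the union of two disjoint sets with `is₁₂ = 0`; hence property (a)
implies amenability, and so does property (d). -/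
theorem result (G : Type u) [Group G] :
    (¬ IsAmenable G → ∃ A : Set G, is12 A = 0 ∧ is12 Aᶜ = 0) ∧
    (PropertyA G → IsAmenable G) ∧ (PropertyD G → IsAmenable G) := by
  classical
  have hcol : ¬ IsAmenable G → ∃ c : G → Fin 2, ∀ i, is12 {x | c x = i} = 0 := by
    intro hG
    obtain ⟨A, h1, h2⟩ := exists_null_half hG
    refine ⟨fun x => if x ∈ A then 0 else 1, ?_⟩
    intro i
    fin_cases i
    · have : {x | (if x ∈ A then (0 : Fin 2) else 1) = 0} = A := by
        ext x
        by_cases h : x ∈ A <;> simp [h]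
      exact (congrArg is12 this).trans h1
    · have : {x | (if x ∈ A then (0 : Fin 2) else 1) = 1} = Aᶜ := by
        ext x
        by_cases h : x ∈ A <;> simp [h]
      exact (congrArg is12 this).trans h2
  refine ⟨exists_null_half, ?_, ?_⟩
  · intro hA
    by_contra hG
    obtain ⟨c, hc⟩ := hcol hG
    obtain ⟨i, hi⟩ := hA 2 (by norm_num) c
    rw [hc i] at hi
    norm_num at hi
  · intro hA
    by_contra hG
    obtain ⟨c, hc⟩ := hcol hG
    obtain ⟨i, hi⟩ := hA 2 (by norm_num) c
    rw [hc i] at hi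
    exact lt_irrefl _ hi

end Pool.Agent.Results.MP_d97def_al.NullHalves
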