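import Pool.Agent.H883B.LocFinCase
import Pool.Agent.H883B.Quot
import Pool.Agent.H883B.Radical
import Pool.Agent.H883B.TaskDirected
import Pool.Agent.H883B.TaskExt
import Pool.Agent.H883B.TaskRestrict
import Pool.Agent.H883B.TaskTop
import Pool.Agent.H883B.TaskTwo
import Pool.Agent.PackIndex.Core

/-!
# The structure of groups with property (b)

Let `G` be a group such that every partition of `G` into `n` cells has a cell `A` with
`pack(A) ≤ n`, and let `R` be the amenable radical of `G`. Then `R` contains every element of
infinite order, every element that lies in arbitrarily large finite subgroups and every infinite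
locally finite subgroup of `G`; the quotient `G ⧸ R` is a torsion group in which every nontrivial
element has finite overgroups of bounded order only and in which all locally finite subgroups are
finite; and if `G ⧸ R` is a 2-group, then `G` is amenable.

The two statements about elements of infinite order and about elements in large finite subgroups
are the hand-in `PackingLargeSubgroups` (helper949), which is used here.
-/

namespace Pool.Agent.Results.MP_d97def_al.PropertyBStructure

universe u

open Pool.Agent.H883B

/-- The element `g` lies in finite subgroups of arbitrarily large order. -/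
def HasLargeOvergroups {G : Type u} [Group G] (g : G) : Prop :=
  ∀ m : ℕ, ∃ H : Subgroup G, Finite H ∧ g ∈ H ∧ m ≤ Nat.card H

/-- elements of infinite order and elements in large finite subgroups -/
lemma largeOvergroups {G : Type u} [Group G] (hB : PropertyB G) :
    ∃ N : Subgroup G, N.Normal ∧ IsAmenable N ∧ (∀ g : G, ¬ IsOfFinOrder g → g ∈ N) ∧
      ∀ g : G, HasLargeOvergroups g → g ∈ N := by
  refine Pool.Agent.PackIndex.main G ?_
  intro n hn c
  obtain ⟨i, hi⟩ := hB n hn c
  refine ⟨i, ?_⟩
  intro E hE
  by_contra hcon
  exact not_packGe_of_pack_le hi (not_le.1 hcon) ⟨E, rfl, fun x hx y hy h => hE x hx y hy h⟩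

/-- finite groups are amenable -/
lemma amenable_of_finite (G : Type u) [Group G] [Finite G] : IsAmenable G := by
  classical
  have : Fintype G := Fintype.ofFinite G
  refine ⟨fun A => (A.ncard : ℝ) / Nat.card G, fun A => by positivity, ?_, ?_, ?_⟩
  · simp only [Set.ncard_univ]
    exact div_self (by exact_mod_cast Nat.card_pos.ne')
  · intro A B hAB
    simp only [Set.ncard_union_eq hAB (Set.toFinite A) (Set.toFinite B)]
    push_cast
    ring
  · intro g A
    simp only [Set.ncard_image_of_injective A (mul_right_injective g)]

/-- **Theorem.** Let `G` be a group with property (b). Then the amenable radical `R` of `G`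
contains all elements of infinite order, all elements that lie in arbitrarily large finite subgroups
and all infinite locally finite subgroups; `G ⧸ R` is a torsion group in which only the identity
lies in arbitrarily large finite subgroups and in which locally finite subgroups are finite; and if
`G ⧸ R` is a 2-group, then `G` is amenable. -/
theorem result (G : Type u) [Group G] (hB : PropertyB G) :
    ∃ (R : Subgroup G) (_ : R.Normal), IsAmenable R ∧
      (∀ N : Subgroup G, N.Normal → IsAmenable N → N ≤ R) ∧
      (∀ g : G, ¬ IsOfFinOrder g → g ∈ R) ∧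
      (∀ g : G, HasLargeOvergroups g → g ∈ R) ∧
      (∀ H : Subgroup G, LocFin H → Infinite H → H ≤ R) ∧
      (∀ q : G ⧸ R, IsOfFinOrder q) ∧
      (∀ q : G ⧸ R, HasLargeOvergroups q → q = 1) ∧
      (∀ H : Subgroup (G ⧸ R), LocFin H → Finite H) ∧
      ((∀ q : G ⧸ R, ∃ n : ℕ, q ^ 2 ^ n = 1) → IsAmenable G) := by
  obtain ⟨R, hRn, hRa, hRmax⟩ :=
    taskRadical taskExt taskQuot taskDirected taskRestrict G
  have hBQ : PropertyB (G ⧸ R) :=
    taskBQuot G (G ⧸ R) (QuotientGroup.mk' R) (QuotientGroup.mk'_surjective R) hB
  have htriv := taskTop taskExt taskQuot G R hRa hRmax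
  have hQlf : ∀ H : Subgroup (G ⧸ R), LocFin H → Finite H := by
    intro H hH
    by_contra hinf
    have hinf' : Infinite H := not_finite_iff_infinite.1 hinf
    have h1 := htriv _ inferInstance (amenable_normalClosure hBQ H hH hinf')
    have h2 : H ≤ ⊥ := by
      rw [← h1]
      exact Subgroup.subset_normalClosure
    have h3 : H = ⊥ := le_bot_iff.1 h2
    subst h3
    exact hinf inferInstance
  obtain ⟨N, hNn, hNa, hN, hN'⟩ := largeOvergroups hB
  obtain ⟨N₁, hN₁n, hN₁a, hN₁, hN₁'⟩ := largeOvergroups hBQ
  refine ⟨R, hRn, hRa, hRmax, ?_, ?_, ?_, ?_, ?_, hQlf, ?_⟩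
  · intro g hg
    exact hRmax N hNn hNa (hN g hg)
  · intro g hg
    exact hRmax N hNn hNa (hN' g hg)
  · intro H hH hinf
    exact le_trans Subgroup.subset_normalClosure
      (hRmax _ inferInstance (amenable_normalClosure hB H hH hinf))
  · intro q
    by_contra hq
    have h1 := hN₁ q hq
    rw [htriv N₁ hN₁n hN₁a, Subgroup.mem_bot] at h1
    rw [h1] at hq
    exact hq IsOfFinOrder.one
  · intro q hq
    have h1 := hN₁' q hq
    rwa [htriv N₁ hN₁n hN₁a, Subgroup.mem_bot] at h1
  · intro h2
    have hfin : Finite (G ⧸ R) := by
      by_contra hinf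
      obtain ⟨H, hH, hHinf⟩ := taskTwo (G ⧸ R) (not_finite_iff_infinite.1 hinf) h2
      have := hQlf H hH
      exact not_finite H
    exact taskExt G R hRa (amenable_of_finite (G ⧸ R))

end Pool.Agent.Results.MP_d97def_al.PropertyBStructure
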